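import Pool.Agent.Helper70.RT.Sheet

/-! Row SIEVE of the sheet `Helper70/RT/Sheet.lean` (MP_798d7d_nt): sum over the primes. -/

set_option autoImplicit false

namespace Pool.Helper70.RT

namespace S91

open Finset

open Classical in
theorem sieve_sum {α : Type*} (Bx : ℕ → Finset α) (A B : α → ℤ) (Q : ℕ)
    (hQ : 10000000 ≤ Q)
    (hS : ∀ m q : ℕ, q.Prime → Q < q → q ≤ m →
      ((Bx m).filter (fun T => (q : ℤ) ∣ A T ∧ (q : ℤ) ∣ B T)).card * q ^ 2 ≤ 1000000 * m ^ 4)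
    (hL : ∃ K : ℕ, ∀ m : ℕ, 2 ≤ m →
      ((Bx m).filter (fun T => ∃ q : ℕ, q.Prime ∧ m < q ∧ Q < q ∧ (q : ℤ) ∣ A T ∧
        (q : ℤ) ∣ B T)).card ≤ K * m ^ 3) :
    ∃ m0 : ℕ, ∀ m : ℕ, m0 ≤ m →
      2 * ((Bx m).filter (fun T => ∃ q : ℕ, q.Prime ∧ Q < q ∧ (q : ℤ) ∣ A T ∧
        (q : ℤ) ∣ B T)).card ≤ m ^ 4 := by
  obtain ⟨K, hK⟩ := hL
  refine ⟨3 * K + 2 + Q, fun m hm => ?_⟩
  have hm2 : 2 ≤ m := by omega
  have hQm : Q ≤ m := by omega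
  have hKm : 3 * K ≤ m := by omega
  have hKl := hK m hm2
  set L := (Bx m).filter (fun T => ∃ q : ℕ, q.Prime ∧ m < q ∧ Q < q ∧ (q : ℤ) ∣ A T ∧
        (q : ℤ) ∣ B T) with hLdef
  set F : ℕ → Finset α := fun q => if q.Prime then
    (Bx m).filter (fun T => (q : ℤ) ∣ A T ∧ (q : ℤ) ∣ B T) else ∅ with hF
  have hsub : (Bx m).filter (fun T => ∃ q : ℕ, q.Prime ∧ Q < q ∧ (q : ℤ) ∣ A T ∧
        (q : ℤ) ∣ B T) ⊆ ((Ioc Q m).biUnion F) ∪ L := by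
    intro T hT
    rw [mem_filter] at hT
    obtain ⟨hT, q, hq, hQq, hA, hB⟩ := hT
    rw [mem_union]
    by_cases hqm : q ≤ m
    · left
      rw [mem_biUnion]
      refine ⟨q, mem_Ioc.2 ⟨hQq, hqm⟩, ?_⟩
      simp only [hF, if_pos hq, mem_filter]
      exact ⟨hT, hA, hB⟩
    · right
      rw [hLdef, mem_filter]
      exact ⟨hT, q, hq, by omega, hQq, hA, hB⟩
  have h1 : ((Bx m).filter (fun T => ∃ q : ℕ, q.Prime ∧ Q < q ∧ (q : ℤ) ∣ A T ∧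
        (q : ℤ) ∣ B T)).card ≤ (∑ q ∈ Ioc Q m, (F q).card) + K * m ^ 3 :=
    (card_le_card hsub).trans ((card_union_le _ _).trans (add_le_add card_biUnion_le hKl))
  have h2 : ∀ q ∈ Ioc Q m, ((F q).card : ℝ) ≤ 1000000 * (m : ℝ) ^ 4 * ((q : ℝ) ^ 2)⁻¹ := by
    intro q hq
    rw [mem_Ioc] at hq
    have hq0 : (0 : ℝ) < (q : ℝ) ^ 2 := by
      have : (0 : ℝ) < (q : ℝ) := by
        have : 0 < q := by omega
        exact_mod_cast this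
      positivity
    rw [← div_eq_mul_inv, le_div_iff₀ hq0]
    by_cases hp : q.Prime
    · have := hS m q hp hq.1 hq.2
      simp only [hF, if_pos hp]
      exact_mod_cast this
    · simp only [hF, if_neg hp, card_empty, Nat.cast_zero, zero_mul]
      positivity
  have h3 : (∑ q ∈ Ioc Q m, ((F q).card : ℝ)) ≤
      1000000 * (m : ℝ) ^ 4 * ((Q : ℝ)⁻¹ - (m : ℝ)⁻¹) := by
    refine (sum_le_sum h2).trans ?_
    rw [← mul_sum]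
    exact mul_le_mul_of_nonneg_left (sum_Ioc_inv_sq_le_sub (by omega) hQm) (by positivity)
  have hQr : (10000000 : ℝ) ≤ (Q : ℝ) := by exact_mod_cast hQ
  have hQi : (Q : ℝ)⁻¹ ≤ 1 / 10000000 := by
    rw [← one_div]
    exact one_div_le_one_div_of_le (by norm_num) hQr
  have hmi : (0 : ℝ) ≤ (m : ℝ)⁻¹ := by positivity
  have hm4 : (0 : ℝ) ≤ (m : ℝ) ^ 4 := by positivity
  have h4 : (∑ q ∈ Ioc Q m, ((F q).card : ℝ)) ≤ (m : ℝ) ^ 4 / 10 := by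
    refine h3.trans ?_
    have : 1000000 * (m : ℝ) ^ 4 * ((Q : ℝ)⁻¹ - (m : ℝ)⁻¹) ≤
        1000000 * (m : ℝ) ^ 4 * (1 / 10000000) :=
      mul_le_mul_of_nonneg_left (by linarith) (by positivity)
    linarith
  have h5 : (((Bx m).filter (fun T => ∃ q : ℕ, q.Prime ∧ Q < q ∧ (q : ℤ) ∣ A T ∧
        (q : ℤ) ∣ B T)).card : ℝ) ≤ (m : ℝ) ^ 4 / 10 + K * (m : ℝ) ^ 3 := by
    have : (((Bx m).filter (fun T => ∃ q : ℕ, q.Prime ∧ Q < q ∧ (q : ℤ) ∣ A T ∧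
        (q : ℤ) ∣ B T)).card : ℝ) ≤ (∑ q ∈ Ioc Q m, ((F q).card : ℝ)) + K * (m : ℝ) ^ 3 := by
      exact_mod_cast h1
    linarith
  have hKr : 3 * (K : ℝ) ≤ (m : ℝ) := by exact_mod_cast hKm
  have hm3 : (0 : ℝ) ≤ (m : ℝ) ^ 3 := by positivity
  have h6 : 3 * (K : ℝ) * (m : ℝ) ^ 3 ≤ (m : ℝ) ^ 4 := by
    have := mul_le_mul_of_nonneg_right hKr hm3
    calc 3 * (K : ℝ) * (m : ℝ) ^ 3 ≤ (m : ℝ) * (m : ℝ) ^ 3 := this
      _ = (m : ℝ) ^ 4 := by ring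
  have h7 : 2 * (((Bx m).filter (fun T => ∃ q : ℕ, q.Prime ∧ Q < q ∧ (q : ℤ) ∣ A T ∧
        (q : ℤ) ∣ B T)).card : ℝ) ≤ (m : ℝ) ^ 4 := by linarith
  exact_mod_cast h7

theorem QQ_ge : 10000000 ≤ QQ := by
  unfold QQ
  exact Nat.le_add_left _ _

end S91

/-- Row SIEVE. -/
theorem st_SIEVE (hS : ST_SVS) (hL : ST_SVL) : ST_SIEVE :=
  S91.sieve_sum Box (fun T => cA (ww T)) (fun T => cB (ww T)) QQ S91.QQ_ge hS hL

end Pool.Helper70.RT
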